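import Pool.Agent.H87.LUY.Stmts
import Pool.Agent.H3.LU.Uni
import Mathlib.Data.ZMod.Basic

/-!
Project LU, part Y, module CHN: a chain of normal subgroups with level functions and free actions
of the faces.
-/

set_option autoImplicit false

open Filter Pool.H3.L2

noncomputable section

namespace Pool.LU.FK

/-! ### the permutations of the levels -/

theorem chn_up {l : ℕ} (hl : 1 ≤ l) (n : ZMod (2 * l)) : (n + 1).val % 2 = (n.val + 1) % 2 := by
  have : NeZero (2 * l) := ⟨by omega⟩
  have : Fact (1 < 2 * l) := ⟨by omega⟩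
  rw [ZMod.val_add, ZMod.val_one, Nat.mod_mod_of_dvd _ (dvd_mul_right 2 l)]

theorem chn_dn {l : ℕ} (hl : 1 ≤ l) (n : ZMod (2 * l)) : (n - 1).val % 2 = (n.val + 1) % 2 := by
  have h := chn_up hl (n - 1)
  rw [sub_add_cancel] at h
  omega

/-- down by one on the levels with parity `b`, up by one on the other levels -/
def chnFun (l : ℕ) (b : Bool) (n : ZMod (2 * l)) : ZMod (2 * l) :=
  if (n.val % 2 = 1 ↔ b = true) then n - 1 else n + 1

theorem chnFun_par {l : ℕ} (hl : 1 ≤ l) (b : Bool) (n : ZMod (2 * l)) :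
    ((chnFun l b n).val % 2 = 1 ↔ b = true) ↔ ¬ (n.val % 2 = 1 ↔ b = true) := by
  unfold chnFun
  have h1 := chn_up hl n
  have h2 := chn_dn hl n
  have h3 : n.val % 2 = 0 ∨ n.val % 2 = 1 := by omega
  split_ifs with h <;> cases b <;> simp at h ⊢ <;> omega

theorem chnFun_inv {l : ℕ} (hl : 1 ≤ l) (b : Bool) (n : ZMod (2 * l)) :
    chnFun l b (chnFun l b n) = n := by
  have h := chnFun_par hl b n
  by_cases h1 : (n.val % 2 = 1 ↔ b = true)
  · have h2 : ¬ ((chnFun l b n).val % 2 = 1 ↔ b = true) := fun h' => (h.mp h') h1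
    have h3 : chnFun l b n = n - 1 := if_pos h1
    have h4 : chnFun l b (chnFun l b n) = chnFun l b n + 1 := if_neg h2
    rw [h4, h3, sub_add_cancel]
  · have h2 : ((chnFun l b n).val % 2 = 1 ↔ b = true) := h.mpr h1
    have h3 : chnFun l b n = n + 1 := if_neg h1
    have h4 : chnFun l b (chnFun l b n) = chnFun l b n - 1 := if_pos h2
    rw [h4, h3, add_sub_cancel_right]

/-- the permutation of the levels of a vertex -/
def chnT (l : ℕ) (v : SV) : Equiv.Perm (ZMod (2 * (l + 1))) :=
  if nz v = 0 then ⟨chnFun (l + 1) (par v), chnFun (l + 1) (par v),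
    fun n => chnFun_inv (by omega) _ n, fun n => chnFun_inv (by omega) _ n⟩ else 1

theorem chnT_corner (l : ℕ) (v : SV) (hv : nz v = 0) (n : ZMod (2 * (l + 1))) :
    chnT l v n = chnFun (l + 1) (par v) n := by
  unfold chnT
  rw [if_pos hv]
  rfl

theorem chnT_other (l : ℕ) (v : SV) (hv : nz v ≠ 0) : chnT l v = 1 := by
  unfold chnT
  rw [if_neg hv]

theorem chnT_sq (l : ℕ) (v : SV) : chnT l v * chnT l v = 1 := by
  by_cases hv : nz v = 0
  · ext n
    rw [Equiv.Perm.mul_apply, chnT_corner l v hv, chnT_corner l v hv, chnFun_inv (by omega)]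
    rfl
  · rw [chnT_other l v hv, one_mul]

theorem chn_corner_adj : ∀ u v : SV, sadj u v → nz u = 0 → nz v = 0 → False := by decide

theorem chn_face_adj : ∀ u v : SV, sadj u v → nz u = 2 → nz v = 2 → False := by decide

theorem chn_symm : ∀ u v : SV, sadj u v → sadj v u := by decide

theorem chnT_comm (l : ℕ) (u v : SV) (h : sadj u v) : chnT l u * chnT l v = chnT l v * chnT l u := by
  by_cases hu : nz u = 0
  · have hv : nz v ≠ 0 := fun hv => chn_corner_adj u v h hu hv
    rw [chnT_other l v hv, one_mul, mul_one]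
  · rw [chnT_other l u hu, one_mul, mul_one]

section

variable {W : Type} [Group W] (R : RA SV sadj W)

/-- the action of `W` on the levels -/
theorem chn_exists (l : ℕ) : ∃ f : W →* Equiv.Perm (ZMod (2 * (l + 1))), ∀ v, f (R.s v) = chnT l v :=
  uni SV sadj chn_symm W R _ (chnT l) (chnT_sq l) (chnT_comm l)

/-- the action of `W` on the levels -/
def chnF (l : ℕ) : W →* Equiv.Perm (ZMod (2 * (l + 1))) := (chn_exists R l).choose

theorem chnF_s (l : ℕ) (v : SV) : chnF R l (R.s v) = chnT l v := (chn_exists R l).choose_spec v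

instance chnF_fin (l : ℕ) : (chnF R l).ker.FiniteIndex := by
  have : NeZero (2 * (l + 1)) := ⟨by omega⟩
  have : Finite (Equiv.Perm (ZMod (2 * (l + 1)))) := inferInstance
  infer_instance

/-- the chain -/
def chnC (c : NChain R) : NChain R where
  N i := c.N i ⊓ ⨅ j : Fin (i + 1), (chnF R j.1).ker
  normal i := by
    have := c.normal i
    have : (⨅ j : Fin (i + 1), (chnF R j.1).ker).Normal :=
      Subgroup.normal_iInf_normal fun j => inferInstance
    infer_instance
  fin i := by
    have := c.fin i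
    have : (⨅ j : Fin (i + 1), (chnF R j.1).ker).FiniteIndex :=
      Subgroup.finiteIndex_iInf fun j => inferInstance
    infer_instance
  anti i i' h := by
    refine inf_le_inf (c.anti h) ?_
    refine le_iInf fun j => ?_
    exact iInf_le (fun j : Fin (i' + 1) => (chnF R j.1).ker) ⟨j.1, by omega⟩
  inf := by
    rw [eq_bot_iff, ← c.inf]
    exact iInf_mono fun i => inf_le_left
  le i := inf_le_left.trans (c.le i)

theorem chnC_le (c : NChain R) (i : ℕ) : (chnC R c).N i ≤ (chnF R i).ker :=
  inf_le_right.trans (iInf_le (fun j : Fin (i + 1) => (chnF R j.1).ker) ⟨i, by omega⟩)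

/-- the level function -/
def chnNu (c : NChain R) (i : ℕ) : ((chnC R c).X i).X → ZMod (2 * (i + 1)) :=
  Quotient.lift (fun w => (chnF R i w)⁻¹ 0) (by
    intro a b hab
    have hab' : b * a⁻¹ ∈ (chnC R c).N i := QuotientGroup.rightRel_apply.1 hab
    have h3 : chnF R i (b * a⁻¹) = 1 := chnC_le R c i hab'
    rw [map_mul, map_inv, mul_inv_eq_one] at h3
    change (chnF R i a)⁻¹ 0 = (chnF R i b)⁻¹ 0
    rw [h3])

theorem chnNu_rho (c : NChain R) (i : ℕ) (v : SV) (y : ((chnC R c).X i).X) :
    chnNu R c i (((chnC R c).X i).ρ v y) = chnT i v (chnNu R c i y) := by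
  induction y using Quotient.inductionOn with
  | _ w =>
    change (chnF R i (w * R.s v))⁻¹ 0 = chnT i v ((chnF R i w)⁻¹ 0)
    rw [map_mul, mul_inv_rev, Equiv.Perm.mul_apply, chnF_s]
    congr 1
    exact congrArg (fun e : Equiv.Perm _ => e) (inv_eq_of_mul_eq_one_left (chnT_sq i v))

/-- the finite level as a `YSet` -/
def chnY (c : NChain R) (i : ℕ) : YSet where
  X := ((chnC R c).X i).X
  fin := ((chnC R c).X i).fin
  dec := Classical.decEq _
  ρ := ((chnC R c).X i).ρ
  χ v y := if nz v = 0 then (if ((chnNu R c i y).val % 2 = 1 ↔ par v = true) then 1 else -1)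
    else ((chnC R c).X i).χ v y
  ρρ := ((chnC R c).X i).ρρ
  comm := ((chnC R c).X i).comm
  χ_self v y := by
    by_cases hv : nz v = 0
    · rw [if_pos hv, if_pos hv, chnNu_rho, chnT_corner i v hv]
      have h := chnFun_par (l := i + 1) (by omega) (par v) (chnNu R c i y)
      by_cases h1 : ((chnNu R c i y).val % 2 = 1 ↔ par v = true)
      · rw [if_pos h1, if_neg (fun h' => (h.mp h') h1)]
      · rw [if_neg h1, if_pos (h.mpr h1), neg_neg]
    · rw [if_neg hv, if_neg hv]
      exact ((chnC R c).X i).χ_self v y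
  χ_adj u v h y := by
    by_cases hu : nz u = 0
    · have hv : nz v ≠ 0 := fun hv => chn_corner_adj u v h hu hv
      rw [if_pos hu, if_pos hu, chnNu_rho, chnT_other i v hv, Equiv.Perm.one_apply]
    · rw [if_neg hu, if_neg hu]
      exact ((chnC R c).X i).χ_ne u v h.1 y

theorem chnLvl (c : NChain R) (i : ℕ) : Nonempty (Lvl (chnY R c i) (i + 1)) := by
  refine ⟨⟨chnNu R c i, ?_, ?_, ?_⟩⟩
  · intro v y hv
    change (if nz v = 0 then (if ((chnNu R c i y).val % 2 = 1 ↔ par v = true) then (1 : ℤˣ) else -1)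
      else ((chnC R c).X i).χ v y) = 1 ↔ _
    rw [if_pos hv]
    split_ifs with h
    · exact iff_of_true rfl h
    · exact iff_of_false (by decide) h
  · intro v y hv h1
    change (if nz v = 0 then (if ((chnNu R c i y).val % 2 = 1 ↔ par v = true) then (1 : ℤˣ) else -1)
      else ((chnC R c).X i).χ v y) = 1 at h1
    rw [if_pos hv] at h1
    have h2 : ((chnNu R c i y).val % 2 = 1 ↔ par v = true) := by
      by_contra h3
      rw [if_neg h3] at h1
      exact absurd h1 (by decide)
    exact (chnNu_rho R c i v y).trans ((chnT_corner i v hv _).trans (if_pos h2))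
  · intro v y hv
    exact (chnNu_rho R c i v y).trans
      (congrArg (fun e : Equiv.Perm (ZMod (2 * (i + 1))) => e (chnNu R c i y)) (chnT_other i v hv))

/-! ### free words -/

/-- the product of the generators of a word, on the right of `g` -/
theorem chn_len (w : List SV) : ∀ (g : W) (f0 : SV), (∀ f ∈ w, nz f = 2) → nz f0 = 2 →
    R.len (g * R.s f0) < R.len g → (f0 :: w).IsChain (· ≠ ·) →
    R.len (w.foldl (fun g f => g * R.s f) g) = R.len g + w.length := by
  induction w with
  | nil => intro g f0 _ _ _ _; rfl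
  | cons f w ih =>
    intro g f0 hw h0 hd hc
    rw [List.isChain_cons_cons] at hc
    have hf : nz f = 2 := hw f (List.mem_cons_self ..)
    have h1 : R.len (g * R.s f) = R.len g + 1 := by
      rcases R.len_s g f with h | h
      · exact h
      · exfalso
        exact chn_face_adj f0 f (R.desc g f0 f hd (by omega) hc.1) h0 hf
    have h2 : R.len (g * R.s f * R.s f) < R.len (g * R.s f) := by
      rw [mul_assoc, R.s_sq, mul_one]
      omega
    rw [List.foldl_cons, ih (g * R.s f) f (fun f' hf' => hw f' (List.mem_cons_of_mem _ hf')) hf h2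
      hc.2, h1, List.length_cons]
    omega

theorem chn_ne_one (w : List SV) (hne : w ≠ []) (hw : ∀ f ∈ w, nz f = 2)
    (hc : w.IsChain (· ≠ ·)) : w.foldl (fun g f => g * R.s f) 1 ≠ 1 := by
  cases w with
  | nil => exact absurd rfl hne
  | cons f w =>
    have hf : nz f = 2 := hw f (List.mem_cons_self ..)
    have h0 : R.len (1 : W) = 0 := (R.len_one 1).mpr rfl
    have h1 : R.len (R.s f) = 1 := by
      have h := R.len_s 1 f
      rw [one_mul, h0] at h
      omega
    have h2 : R.len (R.s f * R.s f) < R.len (R.s f) := by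
      rw [R.s_sq, h0, h1]
      omega
    have h3 := chn_len R w (R.s f) f (fun f' hf' => hw f' (List.mem_cons_of_mem _ hf')) hf h2 hc
    intro h
    rw [List.foldl_cons, one_mul] at h
    rw [h, h0, h1] at h3
    omega

theorem chn_foldl_mul (w : List SV) : ∀ a g : W,
    w.foldl (fun g f => g * R.s f) (a * g) = a * w.foldl (fun g f => g * R.s f) g := by
  induction w with
  | nil => intro a g; rfl
  | cons f w ih => intro a g; rw [List.foldl_cons, List.foldl_cons, mul_assoc, ih]

theorem chn_foldl_coset (c : NChain R) (i : ℕ) (w : List SV) : ∀ g : W,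
    w.foldl (fun y f => (c.X i).ρ f y) (Quotient.mk (QuotientGroup.rightRel (c.N i)) g : (c.X i).X) =
      Quotient.mk (QuotientGroup.rightRel (c.N i)) (w.foldl (fun g f => g * R.s f) g) := by
  induction w with
  | nil => intro g; rfl
  | cons f w ih =>
    intro g
    exact ih (g * R.s f)

theorem chn_free (c : NChain R) (M : ℕ) : ∀ᶠ i in atTop, FreeW (c.X i).ρ M := by
  have h1 : ∀ w : List SV, w ≠ [] → (∀ f ∈ w, nz f = 2) → w.IsChain (· ≠ ·) →
      ∀ᶠ i in atTop, w.foldl (fun g f => g * R.s f) 1 ∉ c.N i := by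
    intro w hne hw hc
    have h2 := chn_ne_one R w hne hw hc
    have h3 : ∃ i, w.foldl (fun g f => g * R.s f) 1 ∉ c.N i := by
      by_contra h4
      push Not at h4
      apply h2
      have h5 : w.foldl (fun g f => g * R.s f) 1 ∈ ⨅ i, c.N i := Subgroup.mem_iInf.mpr h4
      rw [c.inf] at h5
      exact Subgroup.mem_bot.mp h5
    obtain ⟨i, hi⟩ := h3
    filter_upwards [eventually_ge_atTop i] with j hj
    exact fun h => hi (c.anti hj h)
  have h2 : ∀ᶠ i in atTop, ∀ w ∈ {w : List SV | w.length < M}, w ≠ [] → (∀ f ∈ w, nz f = 2) →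
      w.IsChain (· ≠ ·) → w.foldl (fun g f => g * R.s f) 1 ∉ c.N i := by
    rw [Set.Finite.eventually_all (List.finite_length_lt SV M)]
    intro w _
    by_cases h3 : w ≠ [] ∧ (∀ f ∈ w, nz f = 2) ∧ w.IsChain (· ≠ ·)
    · filter_upwards [h1 w h3.1 h3.2.1 h3.2.2] with i hi _ _ _
      exact hi
    · exact Eventually.of_forall fun i h4 h5 h6 => absurd ⟨h4, h5, h6⟩ h3
  filter_upwards [h2] with i hi w hne hlen hw hc y
  induction y using Quotient.inductionOn with
  | _ g =>
    intro h3
    have h4 := (chn_foldl_coset R c i w g).symm.trans h3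
    have h5 : Quotient.mk (QuotientGroup.rightRel (c.N i)) (w.foldl (fun g f => g * R.s f) g) =
      Quotient.mk (QuotientGroup.rightRel (c.N i)) g := h4
    have h6 : g * (w.foldl (fun g f => g * R.s f) g)⁻¹ ∈ c.N i :=
      QuotientGroup.rightRel_apply.1 (Quotient.exact h5)
    have h7 : w.foldl (fun g f => g * R.s f) g = g * w.foldl (fun g f => g * R.s f) 1 := by
      rw [← chn_foldl_mul, mul_one]
    rw [h7] at h6
    apply hi w hlen hne hw hc
    have := c.normal i
    have h8 := (c.N i).inv_mem h6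
    have h9 : (g * (g * w.foldl (fun g f => g * R.s f) 1)⁻¹)⁻¹ =
      g * w.foldl (fun g f => g * R.s f) 1 * g⁻¹ := by group
    rw [h9] at h8
    have h10 := this.conj_mem _ h8 g⁻¹
    simpa [mul_assoc] using h10

theorem chn : CHNStmt := by
  intro W _ R
  obtain ⟨c⟩ := rsd SV sadj chn_symm W R
  refine ⟨chnC R c, ?_, chn_free R (chnC R c)⟩
  intro i
  exact ⟨chnY R c i, Equiv.refl _, i + 1, fun v y => rfl, Nat.lt_succ_self i, chnLvl R c i⟩

end

end Pool.LU.FK
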