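import Pool.Agent.H87.LUY.Stmts
import Mathlib.Analysis.Matrix.Order
import Mathlib.Analysis.Matrix.PosDef

/-!
Project LU, part Y, module DMO: the determinant is monotone on positive semidefinite matrices.
-/

set_option autoImplicit false

namespace Pool.LU.FK

theorem dmo_one {I : Type} [Fintype I] [DecidableEq I] (K : Matrix I I ℝ) (hK : K.PosSemidef) :
    1 ≤ (1 + K).det := by
  have h1 : K.charpoly.eval (-1) = (-1) ^ (Fintype.card I) * (1 + K).det := by
    rw [Matrix.eval_charpoly, ← Matrix.det_neg]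
    congr 1
    rw [map_neg, map_one]
    abel
  have h2 : K.charpoly.eval (-1) =
      (-1) ^ (Fintype.card I) * ∏ i, (1 + hK.isHermitian.eigenvalues i) := by
    rw [hK.isHermitian.charpoly_eq, Polynomial.eval_prod]
    have h3 : ((-1 : ℝ)) ^ (Fintype.card I) = ∏ i : I, (-1 : ℝ) := by
      rw [Finset.prod_const, Finset.card_univ]
    rw [h3, ← Finset.prod_mul_distrib]
    refine Finset.prod_congr rfl fun i _ => ?_
    simp
    ring
  have h3 : (1 + K).det = ∏ i, (1 + hK.isHermitian.eigenvalues i) := by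
    have h4 : ((-1 : ℝ)) ^ (Fintype.card I) ≠ 0 := pow_ne_zero _ (by norm_num)
    exact mul_left_cancel₀ h4 (h1.symm.trans h2)
  rw [h3]
  calc (1 : ℝ) = ∏ i : I, (1 : ℝ) := by simp
    _ ≤ _ := Finset.prod_le_prod (fun _ _ => zero_le_one)
      (fun i _ => by linarith [hK.eigenvalues_nonneg i])

open scoped MatrixOrder in
theorem dmo : DMOStmt := by
  intro I _ _ A B hA hBA
  have hB : B.PosSemidef := by
    have h := hA.add hBA
    rwa [add_sub_cancel] at h
  by_cases h0 : A.det = 0
  · rw [h0]
    exact hB.det_nonneg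
  · obtain ⟨P, hP⟩ := CStarAlgebra.nonneg_iff_eq_star_mul_self.mp hA.nonneg
    rw [Matrix.star_eq_conjTranspose] at hP
    have hPd : P.det ≠ 0 := by
      intro h
      apply h0
      rw [hP, Matrix.det_mul, h, mul_zero]
    have hPu : IsUnit P.det := isUnit_iff_ne_zero.mpr hPd
    have hK : ((P⁻¹).conjTranspose * (B - A) * P⁻¹).PosSemidef :=
      hBA.conjTranspose_mul_mul_same P⁻¹
    have h1 := dmo_one _ hK
    have h2 : B = P.conjTranspose * (1 + (P⁻¹).conjTranspose * (B - A) * P⁻¹) * P := by
      have e1 : P⁻¹ * P = 1 := Matrix.nonsing_inv_mul P hPu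
      have e2 : P.conjTranspose * (P⁻¹).conjTranspose = 1 := by
        rw [← Matrix.conjTranspose_mul, e1, Matrix.conjTranspose_one]
      rw [mul_add, add_mul, mul_one, ← hP]
      have : P.conjTranspose * ((P⁻¹).conjTranspose * (B - A) * P⁻¹) * P =
          (P.conjTranspose * (P⁻¹).conjTranspose) * (B - A) * (P⁻¹ * P) := by
        simp only [Matrix.mul_assoc]
      rw [this, e1, e2, one_mul, mul_one]
      abel
    have h3 : B.det = A.det * (1 + (P⁻¹).conjTranspose * (B - A) * P⁻¹).det := by
      conv_lhs => rw [h2]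
      rw [Matrix.det_mul, Matrix.det_mul, hP, Matrix.det_mul]
      ring
    rw [h3]
    exact le_mul_of_one_le_right hA.det_nonneg h1

end Pool.LU.FK
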