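import Pool.Agent.H87.LUY.Stmts
import Mathlib.Data.ZMod.Basic

/-!
Project LU, part Y, module EQD: the levels have the same numbers of elements.
-/

set_option autoImplicit false

namespace Pool.LU.FK

theorem eqd_val {l : ℕ} (hl : 1 ≤ l) (n : ZMod (2 * l)) :
    (n + 1).val % 2 = (n.val + 1) % 2 := by
  haveI : NeZero (2 * l) := ⟨by omega⟩
  haveI : Fact (1 < 2 * l) := ⟨by omega⟩
  rw [ZMod.val_add, ZMod.val_one, Nat.mod_mod_of_dvd _ (dvd_mul_right 2 l)]

theorem eqd_up (Y : YSet) {l : ℕ} (L : Lvl Y l) (hl : 1 ≤ l) (v : SV) (hv : nz v = 0)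
    (n : ZMod (2 * l)) (hn : (n + 1).val % 2 = 1 ↔ par v = true) (y : Y.X) :
    L.ν (Y.ρ v y) = n ↔ L.ν y = n + 1 := by
  have h1 : ∀ y, L.ν y = n + 1 → L.ν (Y.ρ v y) = n := by
    intro y hy
    have h2 : Y.χ v y = 1 := by
      rw [L.odd v y hv, hy]
      exact hn
    rw [L.dn v y hv h2, hy, add_sub_cancel_right]
  have h2 : ∀ y, L.ν y = n → L.ν (Y.ρ v y) = n + 1 := by
    intro y hy
    have h3 : ¬ Y.χ v y = 1 := by
      rw [L.odd v y hv, hy]
      intro h
      have h4 := eqd_val hl n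
      by_cases hp : par v = true
      · have h5 := hn.mpr hp
        have h6 := h.mpr hp
        omega
      · have h5 : ¬ (n + 1).val % 2 = 1 := fun h => hp (hn.mp h)
        have h6 : ¬ n.val % 2 = 1 := fun h' => hp (h.mp h')
        omega
    have h4 : Y.χ v y = -1 := by
      rcases Int.units_eq_one_or (Y.χ v y) with h | h
      · exact absurd h h3
      · exact h
    have h5 : Y.χ v (Y.ρ v y) = 1 := by rw [Y.χ_self, h4, neg_neg]
    have h6 := L.dn v (Y.ρ v y) hv h5
    rw [Y.ρρ, hy] at h6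
    rw [h6, sub_add_cancel]
  constructor
  · intro h
    have h3 := h2 _ h
    rwa [Y.ρρ] at h3
  · exact h1 y

theorem eqd_succ (Y : YSet) {l : ℕ} (L : Lvl Y l) (hl : 1 ≤ l) (n : ZMod (2 * l)) :
    Fintype.card {y // L.ν y = n + 1} = Fintype.card {y // L.ν y = n} := by
  obtain ⟨v, hv, hp⟩ : ∃ v : SV, nz v = 0 ∧ ((n + 1).val % 2 = 1 ↔ par v = true) := by
    by_cases h : (n + 1).val % 2 = 1
    · exact ⟨v1, by decide, iff_of_true h (by decide)⟩
    · exact ⟨v2, by decide, iff_of_false h (by decide)⟩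
  refine Fintype.card_congr ⟨fun y => ⟨Y.ρ v y.1, ?_⟩, fun y => ⟨Y.ρ v y.1, ?_⟩, ?_, ?_⟩
  · exact (eqd_up Y L hl v hv n hp y.1).mpr y.2
  · rw [← eqd_up Y L hl v hv n hp, Y.ρρ]
    exact y.2
  · intro y
    exact Subtype.ext (Y.ρρ v y.1)
  · intro y
    exact Subtype.ext (Y.ρρ v y.1)

theorem eqd : EQDStmt := by
  intro Y l L hl n
  haveI : NeZero (2 * l) := ⟨by omega⟩
  have h1 : ∀ k : ℕ, Fintype.card {y // L.ν y = (k : ZMod (2 * l))} =
      Fintype.card {y // L.ν y = 0} := by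
    intro k
    induction k with
    | zero => simp
    | succ k ih => rw [← ih, ← eqd_succ Y L hl (k : ZMod (2 * l))]; simp
  have h2 : ∀ m : ZMod (2 * l), Fintype.card {y // L.ν y = m} =
      Fintype.card {y // L.ν y = 0} := by
    intro m
    have h := h1 m.val
    rwa [ZMod.natCast_zmod_val] at h
  have h3 : Fintype.card Y.X = ∑ m : ZMod (2 * l), Fintype.card {y // L.ν y = m} := by
    rw [← Fintype.card_sigma]
    exact (Fintype.card_congr (Equiv.sigmaFiberEquiv L.ν)).symm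
  rw [h3, Finset.sum_congr rfl (fun m _ => h2 m), Finset.sum_const, Finset.card_univ,
    ZMod.card, h2 n, smul_eq_mul]

end Pool.LU.FK
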