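import Pool.Agent.H47.LUY.TRI

/-!
Project LU, part Y, module LEV: block triangular matrices with many blocks.
-/

set_option autoImplicit false

namespace Pool.LU.FK

open Classical in
theorem lev_step {I J : Type} [Fintype I] [DecidableEq I] [Fintype J]
    (Z : Matrix I J ℝ) (r : I → ℕ) (c : J → ℕ) {η : ℝ} (hη : 0 < η)
    (hZ : ∀ i j, Z i j ≠ 0 → r i ≤ c j) (k : ℕ) :
    gd η (Matrix.of fun i j => if (∀ t, 1 ≤ t → t ≤ k → (t ≤ r i ↔ t ≤ c j)) then Z i j else 0) ≤
      gd η Z := by
  induction k with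
  | zero =>
    have h : (Matrix.of fun i j => if (∀ t, 1 ≤ t → t ≤ 0 → (t ≤ r i ↔ t ≤ c j)) then Z i j
        else 0) = Z := by
      ext i j
      rw [Matrix.of_apply, if_pos (fun t h1 h2 => by omega)]
    rw [h]
  | succ k ih =>
    refine le_trans ?_ ih
    set W : Matrix I J ℝ := Matrix.of fun i j =>
      if (∀ t, 1 ≤ t → t ≤ k → (t ≤ r i ↔ t ≤ c j)) then Z i j else 0 with hW
    have h := tri I J W (fun i => k + 1 ≤ r i) (fun j => k + 1 ≤ c j) η hη (by
      intro i j h1 h2
      by_contra h3
      have h4 : Z i j ≠ 0 := by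
        intro h5
        apply h3
        rw [hW, Matrix.of_apply, h5, ite_self]
      exact h2 (h1.trans (hZ i j h4)))
    refine le_of_eq_of_le (congrArg (gd η) ?_) h
    ext i j
    simp only [Matrix.of_apply, hW]
    by_cases h1 : (∀ t, 1 ≤ t → t ≤ k + 1 → (t ≤ r i ↔ t ≤ c j))
    · rw [if_pos h1, if_pos (h1 (k + 1) (by omega) le_rfl),
        if_pos (fun t h2 h3 => h1 t h2 (by omega))]
    · rw [if_neg h1]
      split_ifs with h2 h3
      · exfalso
        apply h1
        intro t h4 h5
        rcases Nat.lt_or_ge t (k + 1) with h6 | h6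
        · exact h3 t h4 (by omega)
        · have : t = k + 1 := by omega
          rw [this]
          exact h2
      · rfl
      · rfl

theorem lev : LEVStmt := by
  classical
  intro I J _ _ _ Z r c η hη hZ
  have h := lev_step Z r c hη hZ (∑ i, r i + ∑ j, c j)
  convert h using 2
  ext i j
  simp only [Matrix.of_apply]
  have h1 : r i ≤ ∑ i, r i + ∑ j, c j :=
    (Finset.single_le_sum (f := r) (fun _ _ => Nat.zero_le _) (Finset.mem_univ i)).trans
      (Nat.le_add_right _ _)
  have h2 : c j ≤ ∑ i, r i + ∑ j, c j :=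
    (Finset.single_le_sum (f := c) (fun _ _ => Nat.zero_le _) (Finset.mem_univ j)).trans
      (Nat.le_add_left _ _)
  by_cases h3 : r i = c j
  · rw [if_pos h3, if_pos (fun t _ _ => by rw [h3])]
  · rw [if_neg h3, if_neg]
    intro h4
    apply h3
    rcases Nat.lt_trichotomy (r i) (c j) with h5 | h5 | h5
    · exact absurd ((h4 (c j) (by omega) h2).mpr le_rfl) (by omega)
    · exact h5
    · exact absurd ((h4 (r i) (by omega) h1).mp le_rfl) (by omega)

end Pool.LU.FK
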