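import Pool.Agent.H87.LUY.Stmts

/-!
Project LU, part Y, module SWP: `det (Z Zᵀ + η) = det (Zᵀ Z + η)` for equal cardinalities.
-/

set_option autoImplicit false

namespace Pool.LU.FK

theorem swp_det {I : Type} [Fintype I] [DecidableEq I] (A : Matrix I I ℝ) (η : ℝ) :
    (A + η • (1 : Matrix I I ℝ)).det = (-1) ^ (Fintype.card I) * A.charpoly.eval (-η) := by
  rw [Matrix.eval_charpoly, ← Matrix.det_neg]
  congr 1
  ext i j
  simp only [Matrix.add_apply, Matrix.smul_apply, Matrix.neg_apply, Matrix.sub_apply,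
    Matrix.scalar_apply, Matrix.diagonal_apply, Matrix.one_apply, smul_eq_mul]
  split_ifs <;> ring

/-- the general form, for two matrices -/
theorem swp_gen {I J : Type} [Fintype I] [DecidableEq I] [Fintype J] [DecidableEq J]
    (A : Matrix I J ℝ) (B : Matrix J I ℝ) (η : ℝ) (h : Fintype.card I = Fintype.card J) :
    (A * B + η • (1 : Matrix I I ℝ)).det = (B * A + η • (1 : Matrix J J ℝ)).det := by
  rw [swp_det, swp_det, h]
  congr 2
  have h1 := Matrix.charpoly_mul_comm' A B
  rw [h] at h1
  exact mul_left_cancel₀ (pow_ne_zero _ Polynomial.X_ne_zero) h1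

theorem swp : SWPStmt := by
  intro I J _ _ _ _ Z η h
  unfold gd
  rw [swp_gen Z Z.transpose η h, Matrix.transpose_transpose]

end Pool.LU.FK
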