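import Pool.Agent.H47.LUY.DMO
import Pool.Agent.H47.LUY.SWP

/-!
Project LU, part Y, module PRD: products.
-/

set_option autoImplicit false

namespace Pool.LU.FK

theorem prd_ct {I J : Type} (Z : Matrix I J ℝ) : Z.conjTranspose = Z.transpose :=
  Matrix.conjTranspose_eq_transpose_of_trivial Z

theorem prd_psd {I J : Type} [Fintype I] [Fintype J] (Z : Matrix I J ℝ) :
    (Z * Z.transpose).PosSemidef := by
  have h := Matrix.posSemidef_self_mul_conjTranspose Z
  rwa [prd_ct] at h

theorem prd_psd' {I J : Type} [Fintype I] [Fintype J] (Z : Matrix I J ℝ) :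
    (Z.transpose * Z).PosSemidef := by
  have h := Matrix.posSemidef_conjTranspose_mul_self Z
  rwa [prd_ct] at h

theorem prd_smul {I : Type} [Fintype I] {A : Matrix I I ℝ} (hA : A.PosSemidef) {c : ℝ}
    (hc : 0 ≤ c) : (c • A).PosSemidef := hA.smul hc

theorem prd_pd {I : Type} [Fintype I] [DecidableEq I] {Q : Matrix I I ℝ}
    (hQ : Q.PosSemidef) {δ : ℝ} (hδ : 0 < δ) : (Q + δ • (1 : Matrix I I ℝ)).PosDef := by
  have h1 : (δ • (1 : Matrix I I ℝ)).PosDef := Matrix.PosDef.one.smul hδ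
  exact h1.posSemidef_add hQ

/-- `1 - δ (Q + δ)⁻¹` is positive semidefinite -/
theorem prd_res {I : Type} [Fintype I] [DecidableEq I] {Q : Matrix I I ℝ} (hQ : Q.PosSemidef)
    {δ : ℝ} (hδ : 0 < δ) :
    (1 - δ • (Q + δ • (1 : Matrix I I ℝ))⁻¹).PosSemidef := by
  set G := Q + δ • (1 : Matrix I I ℝ) with hG
  have hGp : G.PosDef := prd_pd hQ hδ
  have hGu : IsUnit G.det := isUnit_iff_ne_zero.mpr hGp.det_pos.ne'
  have hGi : (G⁻¹).conjTranspose = G⁻¹ := hGp.inv.isHermitian
  have h1 : (Q * Q + δ • Q).PosSemidef := by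
    have h2 := prd_psd Q
    have h3 : Q.transpose = Q := by
      rw [← prd_ct]; exact hQ.isHermitian
    rw [h3] at h2
    exact h2.add (prd_smul hQ hδ.le)
  have h4 := h1.conjTranspose_mul_mul_same G⁻¹
  rw [hGi] at h4
  convert h4 using 1
  have h5 : Q * Q + δ • Q = G * (G - δ • (1 : Matrix I I ℝ)) := by
    rw [hG, add_sub_cancel_right, add_mul, Matrix.smul_mul, one_mul]
  rw [h5, ← Matrix.mul_assoc, Matrix.nonsing_inv_mul G hGu, one_mul, sub_mul, Matrix.smul_mul,
    one_mul, Matrix.mul_nonsing_inv G hGu]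

theorem prd : PRDStmt := by
  intro I J K _ _ _ _ _ X Z ε δ hε hδ hc
  unfold gd
  set Q := Z * Z.transpose with hQd
  have hQ : Q.PosSemidef := prd_psd Z
  set G := Q + δ • (1 : Matrix J J ℝ) with hG
  have hGp : G.PosDef := prd_pd hQ hδ
  have hGu : IsUnit G.det := isUnit_iff_ne_zero.mpr hGp.det_pos.ne'
  have h1 : (X * Z) * (X * Z).transpose = X * Q * X.transpose := by
    rw [Matrix.transpose_mul, hQd]
    simp only [Matrix.mul_assoc]
  rw [h1, Matrix.transpose_transpose]
  have hεδ : (0 : ℝ) ≤ ε * δ := (mul_pos hε hδ).le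
  have hXQ : (X * Q * X.transpose).PosSemidef := by
    have h := hQ.mul_mul_conjTranspose_same X
    rwa [prd_ct] at h
  have h2 : (X * Q * X.transpose + (ε * δ) • (1 : Matrix I I ℝ)).det ≤
      (X * G * X.transpose + (ε * δ) • (1 : Matrix I I ℝ)).det := by
    apply dmo
    · exact hXQ.add (prd_smul Matrix.PosSemidef.one hεδ)
    · have h3 : X * G * X.transpose + (ε * δ) • (1 : Matrix I I ℝ) -
          (X * Q * X.transpose + (ε * δ) • (1 : Matrix I I ℝ)) = δ • (X * X.transpose) := by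
        rw [hG, Matrix.mul_add, Matrix.add_mul, Matrix.mul_smul, Matrix.smul_mul, Matrix.mul_one]
        abel
      rw [h3]
      exact prd_smul (prd_psd X) hδ.le
  have h3 : (X * G * X.transpose + (ε * δ) • (1 : Matrix I I ℝ)).det =
      G.det * (X.transpose * X + (ε * δ) • G⁻¹).det := by
    rw [Matrix.mul_assoc, swp_gen X (G * X.transpose) (ε * δ) hc, ← Matrix.det_mul]
    congr 1
    rw [mul_add, Matrix.mul_smul, Matrix.mul_nonsing_inv G hGu, Matrix.mul_assoc]
  have h4 : (X.transpose * X + (ε * δ) • G⁻¹).det ≤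
      (X.transpose * X + ε • (1 : Matrix J J ℝ)).det := by
    apply dmo
    · exact (prd_psd' X).add (prd_smul hGp.inv.posSemidef hεδ)
    · have h5 : X.transpose * X + ε • (1 : Matrix J J ℝ) - (X.transpose * X + (ε * δ) • G⁻¹) =
          ε • (1 - δ • G⁻¹) := by
        rw [smul_sub, smul_smul]
        abel
      rw [h5]
      exact prd_smul (prd_res hQ hδ) hε.le
  calc _ ≤ _ := h2
    _ = _ := h3
    _ ≤ G.det * (X.transpose * X + ε • (1 : Matrix J J ℝ)).det :=
      mul_le_mul_of_nonneg_left h4 hGp.det_pos.le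
    _ = _ := mul_comm _ _

end Pool.LU.FK
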