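import Pool.Agent.H47.LUY.PRD

/-!
Project LU, part Y, module TRI: block triangular matrices.
-/

set_option autoImplicit false

namespace Pool.LU.FK

theorem tri_sub {I J I' J' : Type} [Fintype I] [DecidableEq I] [Fintype J] [Fintype I']
    [DecidableEq I'] [Fintype J'] (Z : Matrix I J ℝ) (e : I' ≃ I) (f : J' ≃ J) (η : ℝ) :
    gd η (Z.submatrix e f) = gd η Z := by
  unfold gd
  have h : (Z.submatrix e f) * (Z.submatrix e f).transpose + η • (1 : Matrix I' I' ℝ) =
      (Z * Z.transpose + η • (1 : Matrix I I ℝ)).submatrix e e := by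
    rw [Matrix.transpose_submatrix, Matrix.submatrix_mul_equiv, Matrix.submatrix_add,
      Matrix.submatrix_smul, Pi.add_apply, Pi.add_apply, Pi.smul_apply, Pi.smul_apply,
      Matrix.submatrix_one_equiv]
  rw [h, Matrix.det_submatrix_equiv_self]

/-- `1 - Aᵀ (A Aᵀ + η)⁻¹ A` is positive semidefinite -/
theorem tri_proj {I J : Type} [Fintype I] [DecidableEq I] [Fintype J] [DecidableEq J]
    (A : Matrix I J ℝ) {η : ℝ} (hη : 0 < η) :
    (1 - A.transpose * (A * A.transpose + η • (1 : Matrix I I ℝ))⁻¹ * A).PosSemidef := by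
  set G := A * A.transpose + η • (1 : Matrix I I ℝ) with hG
  set H := A.transpose * A + η • (1 : Matrix J J ℝ) with hH
  have hGp : G.PosDef := prd_pd (prd_psd A) hη
  have hHp : H.PosDef := prd_pd (prd_psd' A) hη
  have hGu : IsUnit G.det := isUnit_iff_ne_zero.mpr hGp.det_pos.ne'
  have hHu : IsUnit H.det := isUnit_iff_ne_zero.mpr hHp.det_pos.ne'
  have h1 : H * A.transpose = A.transpose * G := by
    rw [hH, hG, Matrix.add_mul, Matrix.mul_add, Matrix.smul_mul, Matrix.mul_smul, Matrix.one_mul,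
      Matrix.mul_one, Matrix.mul_assoc]
  have h2 : A.transpose * G⁻¹ = H⁻¹ * A.transpose := by
    calc A.transpose * G⁻¹ = H⁻¹ * (H * A.transpose) * G⁻¹ := by
          rw [← Matrix.mul_assoc, Matrix.nonsing_inv_mul H hHu, Matrix.one_mul]
      _ = H⁻¹ * A.transpose := by
          rw [h1, Matrix.mul_assoc, Matrix.mul_assoc, Matrix.mul_nonsing_inv G hGu, Matrix.mul_one]
  have h3 : 1 - A.transpose * G⁻¹ * A = η • H⁻¹ := by
    have h4 : A.transpose * A = H - η • (1 : Matrix J J ℝ) := by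
      rw [hH, add_sub_cancel_right]
    rw [h2, Matrix.mul_assoc, h4, Matrix.mul_sub, Matrix.nonsing_inv_mul H hHu, Matrix.mul_smul,
      Matrix.mul_one]
    abel
  rw [h3]
  exact prd_smul hHp.inv.posSemidef hη.le

theorem tri_block {I1 I2 J1 J2 : Type} [Fintype I1] [DecidableEq I1] [Fintype I2] [DecidableEq I2]
    [Fintype J1] [Fintype J2] (A : Matrix I1 J1 ℝ) (C : Matrix I2 J1 ℝ) (B : Matrix I2 J2 ℝ)
    {η : ℝ} (hη : 0 < η) :
    gd η (Matrix.fromBlocks A 0 C B) = (A * A.transpose + η • (1 : Matrix I1 I1 ℝ)).det *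
      (B * B.transpose + η • (1 : Matrix I2 I2 ℝ) + (C * C.transpose -
        C * (A.transpose * (A * A.transpose + η • (1 : Matrix I1 I1 ℝ))⁻¹ * A) *
          C.transpose)).det := by
  unfold gd
  set G := A * A.transpose + η • (1 : Matrix I1 I1 ℝ) with hG
  have hGp : G.PosDef := prd_pd (prd_psd A) hη
  have hGu : IsUnit G.det := isUnit_iff_ne_zero.mpr hGp.det_pos.ne'
  have h1 : Matrix.fromBlocks A 0 C B * (Matrix.fromBlocks A 0 C B).transpose +
      η • (1 : Matrix (I1 ⊕ I2) (I1 ⊕ I2) ℝ) = Matrix.fromBlocks G (A * C.transpose)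
        (C * A.transpose) (C * C.transpose + B * B.transpose + η • (1 : Matrix I2 I2 ℝ)) := by
    rw [Matrix.fromBlocks_transpose, Matrix.fromBlocks_multiply, ← Matrix.fromBlocks_one,
      Matrix.fromBlocks_smul, Matrix.fromBlocks_add, hG]
    simp
  rw [h1]
  let _ : Invertible G := Matrix.invertibleOfIsUnitDet G hGu
  rw [Matrix.det_fromBlocks₁₁, Matrix.invOf_eq_nonsing_inv]
  congr 2
  have h2 : C * A.transpose * G⁻¹ * (A * C.transpose) =
      C * (A.transpose * G⁻¹ * A) * C.transpose := by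
    simp only [Matrix.mul_assoc]
  rw [h2]
  abel

theorem tri : TRIStmt := by
  classical
  intro I J _ _ _ Z p q _ _ η hη hZ
  set e := Equiv.sumCompl p
  set f := Equiv.sumCompl q
  rw [← tri_sub Z e f η, ← tri_sub _ e f η]
  set A : Matrix {i // p i} {j // q j} ℝ := Matrix.of fun i j => Z i.1 j.1 with hA
  set C : Matrix {i // ¬ p i} {j // q j} ℝ := Matrix.of fun i j => Z i.1 j.1 with hC
  set B : Matrix {i // ¬ p i} {j // ¬ q j} ℝ := Matrix.of fun i j => Z i.1 j.1 with hB
  have h1 : Z.submatrix e f = Matrix.fromBlocks A 0 C B := by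
    ext i j
    rcases i with i | i <;> rcases j with j | j
    · rfl
    · exact hZ _ _ i.2 j.2
    · rfl
    · rfl
  have h2 : (Matrix.of fun i j => if (p i ↔ q j) then Z i j else 0).submatrix e f =
      Matrix.fromBlocks A 0 0 B := by
    ext i j
    rcases i with i | i <;> rcases j with j | j
    · change (if (p i.1 ↔ q j.1) then Z i.1 j.1 else 0) = Z i.1 j.1
      rw [if_pos (iff_of_true i.2 j.2)]
    · change (if (p i.1 ↔ q j.1) then Z i.1 j.1 else 0) = 0
      rw [if_neg (fun h => j.2 (h.mp i.2))]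
    · change (if (p i.1 ↔ q j.1) then Z i.1 j.1 else 0) = 0
      rw [if_neg (fun h => i.2 (h.mpr j.2))]
    · change (if (p i.1 ↔ q j.1) then Z i.1 j.1 else 0) = Z i.1 j.1
      rw [if_pos (iff_of_false i.2 j.2)]
  rw [h1, h2, tri_block A 0 B hη, tri_block A C B hη]
  have hGp : (A * A.transpose + η • (1 : Matrix {i // p i} {i // p i} ℝ)).PosDef :=
    prd_pd (prd_psd A) hη
  refine mul_le_mul_of_nonneg_left ?_ hGp.det_pos.le
  apply dmo
  · simp only [Matrix.zero_mul, sub_zero, add_zero]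
    exact (prd_pd (prd_psd B) hη).posSemidef
  · have h3 := (tri_proj A hη).mul_mul_conjTranspose_same C
    rw [prd_ct, Matrix.mul_sub, Matrix.sub_mul, Matrix.mul_one] at h3
    simp only [Matrix.zero_mul, sub_zero, add_zero, add_sub_cancel_left]
    exact h3

end Pool.LU.FK
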